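import Mathlib
import Pool.Agent.X205.SMB.Final

/-!
Problem MP_0543b0_an, Q1 (positive answer).

Every infinite-dimensional normed space `E` (real or complex) with norm-separable dual has a
biorthogonal system `(x_n, f_n)` with `[x_n] = E`, `[f_n] = E*` such that for every set `M` of
indices `[f_j]_{j ∈ M} = ([x_j]_{j ∉ M})^⊥`; in particular `[f_{n_k}]` is weak*-closed for every
subsequence.  The same system satisfies `[x_j]_{j ∈ M} = ([f_j]_{j ∉ M})_⊥` for all `M`.
-/

set_option autoImplicit false

open TopologicalSpace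

namespace Pool.Agent.Results.MP_0543b0_an.StrongDualSystem

theorem result (𝕜 : Type*) [RCLike 𝕜] (E : Type*) [NormedAddCommGroup E] [NormedSpace 𝕜 E]
    [SeparableSpace (StrongDual 𝕜 E)] (hinf : ¬ FiniteDimensional 𝕜 E) :
    ∃ (x : ℕ → E) (f : ℕ → StrongDual 𝕜 E),
      (∀ i j, f i (x j) = if i = j then 1 else 0) ∧
      closure (Submodule.span 𝕜 (Set.range x) : Set E) = Set.univ ∧
      closure (Submodule.span 𝕜 (Set.range f) : Set (StrongDual 𝕜 E)) = Set.univ ∧
      (∀ n : ℕ → ℕ, StrictMono n →
        IsClosed ((WeakDual.toStrongDual : WeakDual 𝕜 E → StrongDual 𝕜 E) ⁻¹'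
          closure (Submodule.span 𝕜 (Set.range fun k => f (n k)) : Set (StrongDual 𝕜 E)))) ∧
      ∀ M : Set ℕ,
        closure (Submodule.span 𝕜 (f '' M) : Set (StrongDual 𝕜 E))
          = {g : StrongDual 𝕜 E | ∀ j ∉ M, g (x j) = 0} ∧
        closure (Submodule.span 𝕜 (x '' M) : Set E) = {v : E | ∀ j ∉ M, f j v = 0} := by
  classical
  obtain ⟨x, f, hb, hmain⟩ := Pool.Agent.X205.SMB.main 𝕜 E hinf
  have hF : ∀ M : Set ℕ, closure (Submodule.span 𝕜 (f '' M) : Set (StrongDual 𝕜 E))
      = {g : StrongDual 𝕜 E | ∀ j ∉ M, g (x j) = 0} := by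
    intro M
    refine Set.Subset.antisymm (closure_minimal ?_ ?_) fun y hy => hmain M y hy
    · intro g hg j hj
      exact Pool.Agent.X205.SMB.span_zero hb (A := M) (C := {j})
        (Set.disjoint_singleton_right.2 hj) hg (Submodule.subset_span ⟨j, rfl, rfl⟩)
    · have h1 : {g : StrongDual 𝕜 E | ∀ j ∉ M, g (x j) = 0}
          = ⋂ (j : ℕ) (_ : j ∉ M), {g : StrongDual 𝕜 E | g (x j) = 0} := by
        ext g
        simp
      rw [h1]
      refine isClosed_iInter fun j => isClosed_iInter fun _ => isClosed_eq ?_ continuous_const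
      exact (ContinuousLinearMap.apply 𝕜 𝕜 (x j)).continuous
  have hX : ∀ M : Set ℕ, closure (Submodule.span 𝕜 (x '' M) : Set E)
      = {v : E | ∀ j ∉ M, f j v = 0} := by
    intro M
    refine Set.Subset.antisymm (closure_minimal ?_ ?_) fun v hv => ?_
    · intro v hv j hj
      exact Pool.Agent.X205.SMB.span_zero hb (A := {j}) (C := M)
        (Set.disjoint_singleton_left.2 hj) (Submodule.subset_span ⟨j, rfl, rfl⟩) hv
    · have h1 : {v : E | ∀ j ∉ M, f j v = 0} = ⋂ (j : ℕ) (_ : j ∉ M), {v : E | f j v = 0} := by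
        ext v
        simp
      rw [h1]
      exact isClosed_iInter fun j => isClosed_iInter fun _ => isClosed_eq (f j).continuous
        continuous_const
    · by_contra hnot
      rw [Metric.mem_closure_iff] at hnot
      push Not at hnot
      obtain ⟨d, hd0, hd⟩ := hnot
      obtain ⟨g, _, hg2, hg3⟩ := Pool.Agent.X205.SMB.hb_sep (Submodule.span 𝕜 (x '' M)) v d
        (fun s hs => by rw [← dist_eq_norm]; exact hd s hs)
      have h1 : g ∈ closure (Submodule.span 𝕜 (f '' Mᶜ) : Set (StrongDual 𝕜 E)) := by
        rw [hF]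
        intro j hj
        exact hg2 _ (Submodule.subset_span ⟨j, not_not.1 hj, rfl⟩)
      have h2 : closure (Submodule.span 𝕜 (f '' Mᶜ) : Set (StrongDual 𝕜 E))
          ⊆ {g : StrongDual 𝕜 E | g v = 0} := by
        refine closure_minimal ?_ (isClosed_eq
          (ContinuousLinearMap.apply 𝕜 𝕜 v).continuous continuous_const)
        intro g hg
        rw [SetLike.mem_coe] at hg
        induction hg using Submodule.span_induction with
        | mem g hg =>
          obtain ⟨j, hj, rfl⟩ := hg
          exact hv j hj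
        | zero => rfl
        | add a b _ _ iha ihb =>
          change a v + b v = 0
          rw [show a v = 0 from iha, show b v = 0 from ihb, add_zero]
        | smul c a _ iha =>
          change c • a v = 0
          rw [show a v = 0 from iha, smul_zero]
      have h3 : g v = 0 := h2 h1
      rw [h3, norm_zero] at hg3
      linarith
  refine ⟨x, f, hb, ?_, ?_, fun n _ => ?_, fun M => ⟨hF M, hX M⟩⟩
  · have := hX Set.univ
    rw [Set.image_univ] at this
    rw [this]
    ext v
    simp
  · have := hF Set.univ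
    rw [Set.image_univ] at this
    rw [this]
    ext v
    simp
  · have h1 : (Set.range fun k => f (n k)) = f '' Set.range n := by
      rw [← Set.range_comp]
      rfl
    rw [h1, hF]
    have h2 : (WeakDual.toStrongDual : WeakDual 𝕜 E → StrongDual 𝕜 E) ⁻¹'
        {g : StrongDual 𝕜 E | ∀ j ∉ Set.range n, g (x j) = 0}
        = ⋂ (j : ℕ) (_ : j ∉ Set.range n), {g : WeakDual 𝕜 E | g (x j) = 0} := by
      ext g
      simp only [Set.mem_preimage, Set.mem_ofPred_eq, Set.mem_iInter]
      rfl
    rw [h2]
    exact isClosed_iInter fun j => isClosed_iInter fun _ =>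
      isClosed_eq (WeakDual.eval_continuous (x j)) continuous_const

end Pool.Agent.Results.MP_0543b0_an.StrongDualSystem
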